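import Pool.Agent.P8H91.PV.Final

/-!
# The polynomial Freiman-Ruzsa conjecture over the integers is a statement about dense subsets of
highly proper convex progressions of dimension at most `δ log K`

Let `A` be a finite nonempty set of integers with `|A + A| ≤ K |A|`, `K ≥ 1`, `l = 1 + log K`. `B`
is always a centrally symmetric convex body of `ℝ ^ d`, `pts B` its integer points and `φ` a
homomorphism `ℤ ^ d → ℤ`. If `φ` is injective on `pts (k B)` then it is a Freiman isomorphism of
order `k` on `pts B`.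

(1) Structure. For every real `s ≥ 1` and every `k ≥ 1` there are `B`, `φ` with `d ≤ C s l`, `φ`
injective on `pts (k B)`, and a subset `A'` of `A` with `|A| ≤ exp (C s l) |A'|`, such that

* `A' - A' ⊆ φ (pts B)` (so `A'` lies in one translate of the progression and is Freiman
  isomorphic of order `k` to a subset of `pts B`);
* `|pts (k B)| ≤ exp (C s k ^ (2 / s) l ^ (1 + 1 / s)) |A'|`;
* `A` is covered by `exp (C s l)` translates of `A' - A'`, in particular by so many translates of
  `φ (pts B)`;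
* `φ (pts (k B)) ⊆ h A - h A`, where `h ≤ C (k ^ 2 s l) ^ 4`.

`C` is absolute. So a polynomially dense subset of `A` has a model in dimension `O(log K)` of
density at least `exp (-(log K) ^ (1 + ε))`, and the order of the isomorphism can be any power of
`log K`; and `A` is covered by polynomially many translates of a proper convex progression of
dimension `O(log K)` which is contained in `h A - h A`, `h` a power of `log K` (with
`K ^ O(log log K)` translates this is the known near-polynomial theorem).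

(2) Reduction. For all `ε, δ, a > 0` the conjecture is equivalent to its restriction to the
pairs `(A, K)` for which `A ⊆ φ (pts B)` for some `B`, `φ` with `d ≤ δ (1 + log K)`, `φ` injective
on the integer points of the dilate `(1 + log K) ^ a B`, and the number of these integer points at
most `exp (δ (1 + log K) ^ (1 + ε)) |A|`.

The covering of `A` by polynomially many translates of a progression of rank `O(log K)` and of
volume `exp ((log K) ^ (1 + ε)) |A|` is known (the starting result `GapCover`); its progression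
need not be proper or contained in `h A - h A`, and it gives no model of `A`.
-/

set_option autoImplicit false

open Finset
open scoped Pointwise

namespace Pool.Agent.Results.MP_626a77_co.DenseModels

/-- Compact convex centrally symmetric with nonempty interior. -/
def Body {d : ℕ} (B : Set (Fin d → ℝ)) : Prop :=
  Convex ℝ B ∧ IsCompact B ∧ (interior B).Nonempty ∧ ∀ x ∈ B, -x ∈ B

/-- The integer points of `B`. -/
def pts {d : ℕ} (B : Set (Fin d → ℝ)) : Set (Fin d → ℤ) := {c | (fun i => (c i : ℝ)) ∈ B}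

/-- `m A`, the sums of `m` elements of `A`. -/
def sums (A : Finset ℤ) (m : ℕ) : Finset ℤ :=
  (Fintype.piFinset fun _ : Fin m => A).image fun f => ∑ i, f i

/-- The conclusion of the polynomial Freiman-Ruzsa conjecture, for all the finite sets `A` of
integers with `|A + A| ≤ K |A|` and `P K A`. -/
def PFRFor (P : ℝ → Finset ℤ → Prop) : Prop :=
  ∃ C : ℝ, 1 ≤ C ∧ ∀ (A : Finset ℤ) (K : ℝ), A.Nonempty → 1 ≤ K →
    ((A + A).card : ℝ) ≤ K * A.card → P K A →
    ∃ (d : ℕ) (B : Set (Fin d → ℝ)) (φ : (Fin d → ℤ) →+ ℤ) (T : Finset ℤ),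
      (d : ℝ) ≤ C * (1 + Real.log K) ∧ Body B ∧ (pts B).ncard ≤ A.card ∧
      (T.card : ℝ) ≤ C * K ^ C ∧ ∀ a ∈ A, ∃ t ∈ T, ∃ c ∈ pts B, a = t + φ c

/-- `A` lies in a centred convex progression `φ (pts B)` of dimension at most `δ (1 + log K)`;
`φ` is injective on the integer points of `(1 + log K) ^ a B`, and their number is at most
`exp (δ (1 + log K) ^ (1 + ε)) |A|`. -/
def DenseInProg (ε δ a K : ℝ) (A : Finset ℤ) : Prop :=
  ∃ (d : ℕ) (B : Set (Fin d → ℝ)) (φ : (Fin d → ℤ) →+ ℤ), (d : ℝ) ≤ δ * (1 + Real.log K) ∧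
    Body B ∧ Set.InjOn φ (pts (((1 + Real.log K) ^ a) • B)) ∧
    ((pts (((1 + Real.log K) ^ a) • B)).ncard : ℝ) ≤
      Real.exp (δ * (1 + Real.log K) ^ (1 + ε)) * A.card ∧
    ∀ x ∈ A, ∃ c ∈ pts B, x = φ c

theorem result :
    -- (1)
    (∃ C : ℝ, 1 ≤ C ∧ ∀ (s : ℝ) (k : ℕ) (A : Finset ℤ) (K : ℝ), 1 ≤ s → 1 ≤ k → A.Nonempty →
      1 ≤ K → ((A + A).card : ℝ) ≤ K * A.card →
      ∃ (d h : ℕ) (B : Set (Fin d → ℝ)) (φ : (Fin d → ℤ) →+ ℤ) (A' X : Finset ℤ),
        (d : ℝ) ≤ C * s * (1 + Real.log K) ∧ Body B ∧ Set.InjOn φ (pts ((k : ℝ) • B)) ∧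
        A' ⊆ A ∧ (A.card : ℝ) ≤ Real.exp (C * s * (1 + Real.log K)) * A'.card ∧
        ((pts ((k : ℝ) • B)).ncard : ℝ) ≤
          Real.exp (C * s * ((k : ℝ) ^ (2 / s) * (1 + Real.log K) ^ (1 + 1 / s))) * A'.card ∧
        (∀ u ∈ A', ∀ v ∈ A', ∃ c ∈ pts B, u - v = φ c) ∧
        (X.card : ℝ) ≤ Real.exp (C * s * (1 + Real.log K)) ∧
        (∀ a ∈ A, ∃ x ∈ X, ∃ u ∈ A', ∃ v ∈ A', a = x + (u - v)) ∧
        (h : ℝ) ≤ C * ((k : ℝ) ^ 2 * (s * (1 + Real.log K))) ^ 4 ∧
        ∀ c ∈ pts ((k : ℝ) • B), ∃ u ∈ sums A h, ∃ v ∈ sums A h, φ c = u - v) ∧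
    -- (2)
    (∀ ε δ a : ℝ, 0 < ε → 0 < δ → 0 < a →
      (PFRFor (DenseInProg ε δ a) ↔ PFRFor fun _ _ => True)) :=
  ⟨Pool.Agent.P8H91.PV.part_one, Pool.Agent.P8H91.PV.part_two'⟩

end Pool.Agent.Results.MP_626a77_co.DenseModels
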