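import Pool.Agent.P8H91.EL.Fin

/-!
# The polynomial Freiman-Ruzsa conjecture over the integers: ellipsoids suffice

Generalised arithmetic progressions (lattice points of boxes) cannot replace convex progressions in
the polynomial Freiman-Ruzsa conjecture (Lovett and Regev). Ellipsoids can.

`Body B` says that `B` is a centrally symmetric convex body of `ℝ ^ d`, `pts B` is the set of its
integer points, `Ell M` is the ellipsoid `|M x| ≤ 1` of an invertible matrix `M`.

(1) There is a constant `C` such that for each `B`, in any dimension `d`, there is an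
ellipsoid `E ⊆ d B` such that for ALL `t > 0` the integer points of `t B`, and those of `t E`, are
covered by `C ^ d` translates of the integer points of `t (B ∩ E)`; and an ellipsoid `E'` with at
most as many integer points as `B`, by `C ^ d` translates of which the integer points of `B` are
covered. Since the dimension in the conjecture is `O(log K)`, the loss `C ^ d` is polynomial.

(2) For every class `P` of pairs `(A, K)` the conclusion of the conjecture for the class `P`
is equivalent to the same with ellipsoids. For all the pairs this is: the conjecture is equivalent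
to the statement that each finite nonempty set `A` of integers with `|A + A| ≤ K |A|` is covered by
`C K ^ C` translates of a set

  `{v₁ x₁ + ... + v_d x_d : x ∈ ℤ ^ d, q(x) ≤ 1}`

with `d ≤ C (1 + log K)`, integers `vᵢ` and a positive definite quadratic form `q` for which
`q(x) ≤ 1` has at most `|A|` integer solutions.

(3) Normal form. For all `ε, δ, a > 0` the conjecture is equivalent to the statement with ellipsoids
for those pairs only for which `A` is contained in an ellipsoidal progression `φ (pts E)`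
of dimension at most `δ (1 + log K)`, `φ` injective on the integer points of the dilate
`(1 + log K) ^ a E`, whose number is at most `exp (δ (1 + log K) ^ (1 + ε)) |A|`.

Proof. (1): the existence of an ellipsoid of Milman (proved in the starting files, `H845R2`), whose
quadratic form is added to the one of an Auerbach basis (this gives `E ⊆ d B`); covering by volume
passes to the lattice points of all dilates. The number of lattice points is corrected by
a dilation. (3): the structure theorem of `DenseModels` with a larger dilate, (1) and the covering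
lemma of Ruzsa.
-/

set_option autoImplicit false

open Finset
open scoped Pointwise

namespace Pool.Agent.Results.MP_626a77_co.EllipsoidsSuffice

/-- Compact convex centrally symmetric with nonempty interior. -/
def Body {d : ℕ} (B : Set (Fin d → ℝ)) : Prop :=
  Convex ℝ B ∧ IsCompact B ∧ (interior B).Nonempty ∧ ∀ x ∈ B, -x ∈ B

/-- The integer points of `B`. -/
def pts {d : ℕ} (B : Set (Fin d → ℝ)) : Set (Fin d → ℤ) := {c | (fun i => (c i : ℝ)) ∈ B}

/-- The ellipsoid of the points `x` such that the euclidean norm of `M x` is at most `1`. -/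
def Ell {d : ℕ} (M : Matrix (Fin d) (Fin d) ℝ) : Set (Fin d → ℝ) :=
  {x | ∑ i, (∑ j, M i j * x j) ^ 2 ≤ 1}

/-- The conclusion of the polynomial Freiman-Ruzsa conjecture, for all the finite sets `A` of
integers with `|A + A| ≤ K |A|` and `P K A`. -/
def PFRFor (P : ℝ → Finset ℤ → Prop) : Prop :=
  ∃ C : ℝ, 1 ≤ C ∧ ∀ (A : Finset ℤ) (K : ℝ), A.Nonempty → 1 ≤ K →
    ((A + A).card : ℝ) ≤ K * A.card → P K A →
    ∃ (d : ℕ) (B : Set (Fin d → ℝ)) (φ : (Fin d → ℤ) →+ ℤ) (T : Finset ℤ),
      (d : ℝ) ≤ C * (1 + Real.log K) ∧ Body B ∧ (pts B).ncard ≤ A.card ∧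
      (T.card : ℝ) ≤ C * K ^ C ∧ ∀ a ∈ A, ∃ t ∈ T, ∃ c ∈ pts B, a = t + φ c

/-- The same with ellipsoids. -/
def PFREll (P : ℝ → Finset ℤ → Prop) : Prop :=
  ∃ C : ℝ, 1 ≤ C ∧ ∀ (A : Finset ℤ) (K : ℝ), A.Nonempty → 1 ≤ K →
    ((A + A).card : ℝ) ≤ K * A.card → P K A →
    ∃ (d : ℕ) (M : Matrix (Fin d) (Fin d) ℝ) (φ : (Fin d → ℤ) →+ ℤ) (T : Finset ℤ),
      (d : ℝ) ≤ C * (1 + Real.log K) ∧ M.det ≠ 0 ∧ (pts (Ell M)).ncard ≤ A.card ∧
      (T.card : ℝ) ≤ C * K ^ C ∧ ∀ a ∈ A, ∃ t ∈ T, ∃ c ∈ pts (Ell M), a = t + φ c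

/-- `A` lies in an ellipsoidal progression `φ (pts E)` of dimension at most `δ (1 + log K)`;
`φ` is injective on the integer points of `(1 + log K) ^ a E`, and their number is at most
`exp (δ (1 + log K) ^ (1 + ε)) |A|`. -/
def DenseInEll (ε δ a K : ℝ) (A : Finset ℤ) : Prop :=
  ∃ (d : ℕ) (M : Matrix (Fin d) (Fin d) ℝ) (φ : (Fin d → ℤ) →+ ℤ),
    (d : ℝ) ≤ δ * (1 + Real.log K) ∧ M.det ≠ 0 ∧
    Set.InjOn φ (pts (((1 + Real.log K) ^ a) • Ell M)) ∧
    ((pts (((1 + Real.log K) ^ a) • Ell M)).ncard : ℝ) ≤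
      Real.exp (δ * (1 + Real.log K) ^ (1 + ε)) * A.card ∧
    ∀ x ∈ A, ∃ c ∈ pts (Ell M), x = φ c

theorem result :
    -- (1)
    (∃ C : ℕ, ∀ (d : ℕ) (B : Set (Fin d → ℝ)), Body B →
      (∃ M : Matrix (Fin d) (Fin d) ℝ, M.det ≠ 0 ∧ Ell M ⊆ (d : ℝ) • B ∧ ∀ t : ℝ, 0 < t →
        (∃ F : Finset (Fin d → ℤ), F.card ≤ C ^ d ∧
          ∀ y ∈ pts (t • B), ∃ x ∈ F, y - x ∈ pts (t • (B ∩ Ell M))) ∧
        ∃ F : Finset (Fin d → ℤ), F.card ≤ C ^ d ∧
          ∀ y ∈ pts (t • Ell M), ∃ x ∈ F, y - x ∈ pts (t • (B ∩ Ell M))) ∧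
      ∃ M : Matrix (Fin d) (Fin d) ℝ, M.det ≠ 0 ∧ (pts (Ell M)).ncard ≤ (pts B).ncard ∧
        ∃ F : Finset (Fin d → ℤ), F.card ≤ C ^ d ∧ ∀ y ∈ pts B, ∃ x ∈ F, y - x ∈ pts (Ell M)) ∧
    -- (2)
    (∀ P : ℝ → Finset ℤ → Prop, PFREll P ↔ PFRFor P) ∧
    -- (3)
    (∀ ε δ a : ℝ, 0 < ε → 0 < δ → 0 < a →
      (PFREll (DenseInEll ε δ a) ↔ PFRFor fun _ _ => True)) := by
  refine ⟨⟨7464960, fun d B hB => ⟨?_, ?_⟩⟩, fun P => Pool.Agent.P8H91.EL.ell_iff P,
    Pool.Agent.P8H91.EL.normal_form'⟩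
  · obtain ⟨M, h1, h2, h3⟩ := Pool.Agent.P8H91.EL.all_scales B hB
    refine ⟨M, h1, h2, fun t ht => ?_⟩
    obtain ⟨⟨F, hF, hFc⟩, ⟨F', hF', hFc'⟩⟩ := h3 t ht
    exact ⟨⟨F, hF.trans (Nat.pow_le_pow_left (by norm_num) d), hFc⟩,
      ⟨F', hF'.trans (Nat.pow_le_pow_left (by norm_num) d), hFc'⟩⟩
  · exact Pool.Agent.P8H91.EL.normalised B hB

end Pool.Agent.Results.MP_626a77_co.EllipsoidsSuffice
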