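import Pool.Agent.P8H91.EL.Gau2

/-!
# The polynomial Freiman-Ruzsa conjecture over the integers in terms of gaussians on lattices,
without dimension

`qf M x` is the positive definite quadratic form `|M x|²` of an invertible real matrix `M`. A finite
set `A` of integers satisfies `Corr L A` (correlation with a gaussian on a lattice, with the loss `L`)
if for SOME dimension `d`, with no bound for it, there are a positive definite quadratic form
`q` on `ℤ ^ d`, a homomorphism `φ : ℤ ^ d → ℤ`, a translation `t` and a finite set `S ⊆ ℤ ^ d`, on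
which `φ` is injective, with `t + φ (S) ⊆ A`, such that

* the theta sum `∑ exp (-q(x))` over `ℤ ^ d` is at most `L |A|`;
* the part `∑ exp (-q(x))` over `S` of this sum is at least `|A| / L`.

(1) If `|A + A| ≤ K |A|` and `Corr L A` then `A` is covered by `5000 (32 K L ^ 6) ^ 5000` translates
of a centred convex progression of dimension at most `500 log (64 K L ^ 6)` and volume at most
`|A|`: the conclusion of the conjecture, with polynomial dependence on `K` and `L`, whatever `d` is.

(2) For each class `P` of pairs `(A, K)` the conclusion of the conjecture for the class is equivalent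
to `Corr (C K ^ C) A` for all the pairs of the class with `|A + A| ≤ K |A|`, for some `C`. In
particular the conjecture is equivalent to the statement that each finite nonempty set
`A` of integers with `|A + A| ≤ K |A|` satisfies `Corr (C K ^ C) A`: no convex body, no
bound for the dimension and no covering occur in this form.

Proof. (1): the points of `S` with `q(x) ≤ log (2 L)` are still many; the set `X` of all integer
points with `q(x) ≤ log (2 L)` contains them, and the theta sum bounds `|X|` and `|X + X|` by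
`2 L ^ 2 |A|` and `16 L ^ 5 |A|`, in every dimension. The dimension is then reduced by
the theorem `DimensionFree` of the starting files (weak Marton theorem of Green, Gowers, Manners
and Tao). (2): by `EllipsoidsSuffice` the body is an ellipsoid, `|M x| ≤ 1`, in dimension
`d ≤ C (1 + log K)`, and the form `2 (d + 1) |M x|²` is used; its theta sum is at most
`2 * 3 ^ d` times the number of the integer points of the ellipsoid.
-/

set_option autoImplicit false

open Finset
open scoped Pointwise

namespace Pool.Agent.Results.MP_626a77_co.GaussianForm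

/-- Compact convex centrally symmetric with nonempty interior. -/
def Body {d : ℕ} (B : Set (Fin d → ℝ)) : Prop :=
  Convex ℝ B ∧ IsCompact B ∧ (interior B).Nonempty ∧ ∀ x ∈ B, -x ∈ B

/-- The integer points of `B`. -/
def pts {d : ℕ} (B : Set (Fin d → ℝ)) : Set (Fin d → ℤ) := {c | (fun i => (c i : ℝ)) ∈ B}

/-- The quadratic form of the matrix `M`: the square of the euclidean norm of `M x`. -/
def qf {d : ℕ} (M : Matrix (Fin d) (Fin d) ℝ) (x : Fin d → ℤ) : ℝ :=
  ∑ i, (∑ j, M i j * x j) ^ 2

/-- `A` correlates with a gaussian on some `ℤ ^ d`, with the loss `L`. -/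
def Corr (L : ℝ) (A : Finset ℤ) : Prop :=
  ∃ (d : ℕ) (M : Matrix (Fin d) (Fin d) ℝ) (φ : (Fin d → ℤ) →+ ℤ) (t : ℤ)
    (S : Finset (Fin d → ℤ)), M.det ≠ 0 ∧
    (∀ F : Finset (Fin d → ℤ), ∑ x ∈ F, Real.exp (-qf M x) ≤ L * A.card) ∧
    Set.InjOn φ S ∧ (∀ x ∈ S, t + φ x ∈ A) ∧
    (A.card : ℝ) ≤ L * ∑ x ∈ S, Real.exp (-qf M x)

/-- The conclusion of the polynomial Freiman-Ruzsa conjecture, for all the finite sets `A` of
integers with `|A + A| ≤ K |A|` and `P K A`. -/
def PFRFor (P : ℝ → Finset ℤ → Prop) : Prop :=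
  ∃ C : ℝ, 1 ≤ C ∧ ∀ (A : Finset ℤ) (K : ℝ), A.Nonempty → 1 ≤ K →
    ((A + A).card : ℝ) ≤ K * A.card → P K A →
    ∃ (d : ℕ) (B : Set (Fin d → ℝ)) (φ : (Fin d → ℤ) →+ ℤ) (T : Finset ℤ),
      (d : ℝ) ≤ C * (1 + Real.log K) ∧ Body B ∧ (pts B).ncard ≤ A.card ∧
      (T.card : ℝ) ≤ C * K ^ C ∧ ∀ a ∈ A, ∃ t ∈ T, ∃ c ∈ pts B, a = t + φ c

theorem result :
    -- (1)
    (∀ (A : Finset ℤ) (K L : ℝ), A.Nonempty → 1 ≤ K → 1 ≤ L →
      ((A + A).card : ℝ) ≤ K * A.card → Corr L A →
      ∃ (r : ℕ) (B : Set (Fin r → ℝ)) (θ : (Fin r → ℤ) →+ ℤ) (T : Finset ℤ),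
        (r : ℝ) ≤ 500 * Real.log (64 * K * L ^ 6) ∧ Body B ∧ (pts B).ncard ≤ A.card ∧
        (T.card : ℝ) ≤ 5000 * (32 * K * L ^ 6) ^ 5000 ∧
        ∀ a ∈ A, ∃ t ∈ T, ∃ c ∈ pts B, a = t + θ c) ∧
    -- (2)
    (∀ P : ℝ → Finset ℤ → Prop, PFRFor P ↔
      ∃ C : ℝ, 1 ≤ C ∧ ∀ (A : Finset ℤ) (K : ℝ), A.Nonempty → 1 ≤ K →
        ((A + A).card : ℝ) ≤ K * A.card → P K A → Corr (C * K ^ C) A) := by
  refine ⟨?_, fun P => (Pool.Agent.P8H91.EL.gauss_iff P).symm⟩
  rintro A K L hA hK hL hAK ⟨d, M, φ, t, S, h1, h2, h3, h4, h5⟩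
  exact Pool.Agent.P8H91.EL.of_gaussian A hA K L hK hL hAK M h1 φ t S h2 h3 h4 h5

end Pool.Agent.Results.MP_626a77_co.GaussianForm
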