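import Pool.Agent.P8H91.GR.Final

/-!
# Sets of integers with slow growth at one scale, and the sets for which few proper progressions of
small rank suffice in the polynomial Freiman-Ruzsa conjecture

`m A` is the set of the sums of `m` elements of `A`, `E_m(A)` the number of pairs of `m`-tuples
of elements of `A` with the same sum. Progression means proper generalised arithmetic progression
(`GAP`), and `L = 1 + log R / log m`. All constants in (1) are absolute, and nothing is assumed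
about the doubling of `A` except in (1c), (2b), (3), (4).

(1) Let `m ≥ 2`, `R ≥ 1`.

(a) If `|m A| ≤ R |A|` then `A` is covered by `exp (C L (1 + log L))` translates of a progression of
rank at most `C L` and size at most `R |A|`, and by `R exp (C L (1 + log L))` translates of a
progression of rank at most `C L` and size at most `|A|`. (For `m = 2` this is the known covering
theorem with `R ^ O(log log R)` translates. For `|m A| ≤ m ^ d |A|` the first number is
`exp (O(d log (2 + d)))`, for all `m ≥ 2`.)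

(b) If `E_m(A) ≥ |A| ^ (2 m - 1) / R`, or if some integer is a sum of `2 m` elements of `A` in at
least `|A| ^ (2 m - 1) / R` ways, then `|A ∩ (x + P)| ≥ exp (-C L (1 + log L)) |A|` for an integer
`x` and a progression `P` of rank at most `C L` and size at most `R exp (C L) |A|`, and the same
with `R exp (C L (1 + log L))` and with `|P| ≤ |A|`.

(c) If `|A + A| ≤ K |A|` and some `A' ⊆ A` with `|A'| ≥ |A| / R` has
`E_m(A') ≥ |A'| ^ (2 m - 1) / R` (for instance `|m A'| ≤ R |A'|`), then `A` is covered by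
`K R ^ 2 exp (C L (1 + log L))` translates of a progression of rank at most `C L` and size at most
`|A|`.

(2) Polynomial bounds. Let `δ > 0`, `C₀ ≥ 1`, `l = 2 + log K`, and let `C₁` depend only on
`δ`, `C₀`.

(a) If `|m A| ≤ C₀ K ^ C₀ |A|` for one `m ≥ l ^ δ` then `A` is covered by `C₁ K ^ C₁` translates of
a progression of rank at most `C₁ l / log l` and size at most `|A|`.

(b) If `|A + A| ≤ K |A|` then the same holds if only some `A' ⊆ A` with
`|A'| ≥ |A| / (C₀ K ^ C₀)` has `E_m(A') ≥ |A'| ^ (2 m - 1) / (C₀ K ^ C₀)` for one `m ≥ l ^ δ`.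

(c) Conversely, if `A` is covered by `C₀ K ^ C₀` translates of a centred convex progression of
dimension at most `C₀ l / log l` and volume at most `|A|` then for every `m ≤ l ^ (1 / δ)` some
`A' ⊆ A` with `|A'| ≥ |A| / (C₁ K ^ C₁)` has `|m A'| ≤ C₁ K ^ C₁ |A'|`.

So for the sets `A` with `|A + A| ≤ K |A|` the following are equivalent, up to constants: `A` is
covered by polynomially many (in `K`) translates of a convex progression of dimension
`O(log K / log log K)` and volume at most `|A|`; the same with a proper generalised arithmetic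
progression of rank `O(log K / log log K)`; at one scale `m` between fixed powers of `log K` a
polynomially dense subset has polynomially bounded growth; at one scale `m ≥ (log K) ^ δ` a
polynomially dense subset has polynomially large `m`-fold energy.

(3) One scale controls all scales: the energy of `A'` at one scale `m ≥ l ^ δ` bounds the growth of
a dense subset at all scales `n ≤ l ^ (1 / δ)`.

(4) In dimension `O(log K / log log K)` convex progressions can be replaced by proper generalised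
arithmetic progressions. (In dimension `O(log K)` they cannot, by Lovett and Regev.)

(5), (6): the trivial implications used in these equivalences.
-/

set_option autoImplicit false

open Finset
open scoped Pointwise

namespace Pool.Agent.Results.MP_626a77_co.GrowthAtOneScale

/-- `m A`, the sums of `m` elements of `A`. -/
def sums (A : Finset ℤ) (m : ℕ) : Finset ℤ :=
  (Fintype.piFinset fun _ : Fin m => A).image fun f => ∑ i, f i

/-- `E_m(A)`, the number of the pairs of `m`-tuples of elements of `A` with the same sum. -/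
def energy (A : Finset ℤ) (m : ℕ) : ℕ :=
  (((Fintype.piFinset fun _ : Fin m => A) ×ˢ (Fintype.piFinset fun _ : Fin m => A)).filter
    fun p => ∑ i, p.1 i = ∑ i, p.2 i).card

/-- The number of the `m`-tuples of elements of `A` with sum `z`. -/
def reps (A : Finset ℤ) (m : ℕ) (z : ℤ) : ℕ :=
  ((Fintype.piFinset fun _ : Fin m => A).filter fun f => ∑ i, f i = z).card

/-- `P` is a proper generalised arithmetic progression `{∑ c_i v_i : |c_i| ≤ L_i}` of rank `d ≤ D`
and size `∏ (2 L_i + 1) ≤ V`. -/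
def GAP (D V : ℝ) (P : Set ℤ) : Prop :=
  ∃ (d : ℕ) (v : Fin d → ℤ) (L : Fin d → ℕ), (d : ℝ) ≤ D ∧
    (∀ a b : Fin d → ℤ, (∀ i, |a i| ≤ L i) → (∀ i, |b i| ≤ L i) →
      ∑ i, a i * v i = ∑ i, b i * v i → a = b) ∧
    ((∏ i, (2 * L i + 1) : ℕ) : ℝ) ≤ V ∧
    P = {g | ∃ x : Fin d → ℤ, (∀ i, |x i| ≤ L i) ∧ g = ∑ i, x i * v i}

/-- `A` is covered by at most `M` translates of a proper generalised arithmetic progression of rank
at most `D` and size at most `V`. -/
def Cov (D V M : ℝ) (A : Finset ℤ) : Prop :=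
  ∃ (P : Set ℤ) (T : Finset ℤ), GAP D V P ∧ (T.card : ℝ) ≤ M ∧
    ∀ a ∈ A, ∃ t ∈ T, ∃ p ∈ P, a = t + p

/-- `|A ∩ (x + P)| ≥ |A| / M` for a proper generalised arithmetic progression `P` of rank at most
`D` and size at most `V`, and an integer `x`. -/
def Dense (D V M : ℝ) (A : Finset ℤ) : Prop :=
  ∃ (P : Set ℤ) (x : ℤ) (S : Finset ℤ), GAP D V P ∧ S ⊆ A ∧ (∀ s ∈ S, ∃ p ∈ P, s = x + p) ∧
    (A.card : ℝ) ≤ M * S.card

/-- Compact convex centrally symmetric with nonempty interior. -/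
def Body {d : ℕ} (B : Set (Fin d → ℝ)) : Prop :=
  Convex ℝ B ∧ IsCompact B ∧ (interior B).Nonempty ∧ ∀ x ∈ B, -x ∈ B

/-- The integer points of `B`. -/
def pts {d : ℕ} (B : Set (Fin d → ℝ)) : Set (Fin d → ℤ) := {c | (fun i => (c i : ℝ)) ∈ B}

/-- `A` is covered by at most `M` translates of a centred convex progression of dimension at most
`D` and volume at most `V`. -/
def CovC (D V M : ℝ) (A : Finset ℤ) : Prop :=
  ∃ (d : ℕ) (B : Set (Fin d → ℝ)) (φ : (Fin d → ℤ) →+ ℤ) (T : Finset ℤ), (d : ℝ) ≤ D ∧ Body B ∧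
    ((pts B).ncard : ℝ) ≤ V ∧ (T.card : ℝ) ≤ M ∧ ∀ a ∈ A, ∃ t ∈ T, ∃ c ∈ pts B, a = t + φ c

/-- Some `A' ⊆ A` with `|A'| ≥ |A| / R` has `|m A'| ≤ R |A'|`. -/
def Slow (m : ℕ) (R : ℝ) (A : Finset ℤ) : Prop :=
  ∃ A' ⊆ A, (A.card : ℝ) ≤ R * A'.card ∧ ((sums A' m).card : ℝ) ≤ R * A'.card

/-- Some `A' ⊆ A` with `|A'| ≥ |A| / R` has `E_m(A') ≥ |A'| ^ (2 m - 1) / R`. -/
def Rich (m : ℕ) (R : ℝ) (A : Finset ℤ) : Prop :=
  ∃ A' ⊆ A, (A.card : ℝ) ≤ R * A'.card ∧ (A'.card : ℝ) ^ (2 * m - 1) ≤ R * energy A' m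

/-- `L = 1 + log R / log m` -/
noncomputable def gr (m : ℕ) (R : ℝ) : ℝ := 1 + Real.log R / Real.log m

/-- `exp (C L (1 + log L))` -/
noncomputable def num (C L : ℝ) : ℝ := Real.exp (C * (L * (1 + Real.log L)))

/-- `l / log l` for `l = 2 + log K` -/
noncomputable def rk (K : ℝ) : ℝ := (2 + Real.log K) / Real.log (2 + Real.log K)

theorem result :
    -- (1)
    (∃ C : ℝ, 1 ≤ C ∧ ∀ (A : Finset ℤ) (m : ℕ) (R : ℝ), A.Nonempty → 2 ≤ m → 1 ≤ R →
      (((sums A m).card : ℝ) ≤ R * A.card →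
        Cov (C * gr m R) (R * A.card) (num C (gr m R)) A ∧
        Cov (C * gr m R) A.card (R * num C (gr m R)) A) ∧
      (((A.card : ℝ) ^ (2 * m - 1) ≤ R * energy A m ∨
          ∃ z : ℤ, (A.card : ℝ) ^ (2 * m - 1) ≤ R * reps A (m + m) z) →
        Dense (C * gr m R) (R * Real.exp (C * gr m R) * A.card) (num C (gr m R)) A ∧
        Dense (C * gr m R) A.card (R * num C (gr m R)) A) ∧
      (∀ K : ℝ, 1 ≤ K → ((A + A).card : ℝ) ≤ K * A.card → Rich m R A →
        Cov (C * gr m R) A.card (K * R ^ 2 * num C (gr m R)) A)) ∧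
    -- (2)
    (∀ δ : ℝ, 0 < δ → ∀ C₀ : ℝ, 1 ≤ C₀ → ∃ C₁ : ℝ, 1 ≤ C₁ ∧
      ∀ (A : Finset ℤ) (K : ℝ), A.Nonempty → 1 ≤ K →
        (∀ m : ℕ, 2 ≤ m → (2 + Real.log K) ^ δ ≤ m →
          ((sums A m).card : ℝ) ≤ C₀ * K ^ C₀ * A.card →
            Cov (C₁ * rk K) A.card (C₁ * K ^ C₁) A) ∧
        (∀ m : ℕ, 2 ≤ m → (2 + Real.log K) ^ δ ≤ m → ((A + A).card : ℝ) ≤ K * A.card →
          Rich m (C₀ * K ^ C₀) A → Cov (C₁ * rk K) A.card (C₁ * K ^ C₁) A) ∧
        (∀ m : ℕ, 1 ≤ m → (m : ℝ) ≤ (2 + Real.log K) ^ (1 / δ) →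
          CovC (C₀ * rk K) A.card (C₀ * K ^ C₀) A → Slow m (C₁ * K ^ C₁) A)) ∧
    -- (3)
    (∀ δ : ℝ, 0 < δ → ∀ C₀ : ℝ, 1 ≤ C₀ → ∃ C₁ : ℝ, 1 ≤ C₁ ∧
      ∀ (A : Finset ℤ) (K : ℝ), A.Nonempty → 1 ≤ K → ((A + A).card : ℝ) ≤ K * A.card →
        ∀ m n : ℕ, 2 ≤ m → (2 + Real.log K) ^ δ ≤ m → 1 ≤ n →
          (n : ℝ) ≤ (2 + Real.log K) ^ (1 / δ) →
          Rich m (C₀ * K ^ C₀) A → Slow n (C₁ * K ^ C₁) A) ∧
    -- (4)
    (∀ C₀ : ℝ, 1 ≤ C₀ → ∃ C₁ : ℝ, 1 ≤ C₁ ∧
      ∀ (A : Finset ℤ) (K : ℝ), A.Nonempty → 1 ≤ K → ((A + A).card : ℝ) ≤ K * A.card →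
        CovC (C₀ * rk K) A.card (C₀ * K ^ C₀) A → Cov (C₁ * rk K) A.card (C₁ * K ^ C₁) A) ∧
    -- (5)
    (∀ (A : Finset ℤ) (m : ℕ) (R : ℝ), A.Nonempty → 1 ≤ m → Slow m R A → Rich m R A) ∧
    -- (6)
    (∀ (A : Finset ℤ) (D V M : ℝ), Cov D V M A → CovC D V M A) :=
  ⟨Pool.Agent.P8H91.GR.part_one, Pool.Agent.P8H91.GR.part_two, Pool.Agent.P8H91.GR.part_three,
    Pool.Agent.P8H91.GR.part_four,
    fun _ _ _ hA hm h => Pool.Agent.P8H91.GR.rich_of_slow hA hm h,
    fun _ _ _ _ h => Pool.Agent.P8H91.GR.covC_of_cov h⟩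

end Pool.Agent.Results.MP_626a77_co.GrowthAtOneScale
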